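import Pool.Agent.Lib.H87L.End
import Pool.Agent.Lib.H87G.Main

/-! # H87L, file Level: the levels (MP_73a90e_al)

`Lev N`: the Boolean functions of `N` variables which do not depend on all variables. By the proof of the gap theorem
(`H87G`) a family of partial operations with `d (n) < n / 2` for some `n ≥ 3` generates the power with index set
`{0, 1}^N` from `Lev N`, for some `N`. -/

set_option autoImplicit false

namespace H87L

open Pool.H87G

/-- The Boolean functions of `N` variables which do not depend on at least one of the variables. -/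
def Lev (N : ℕ) : Set ((Fin N → Bool) → Bool) :=
  {G | ∃ j : Fin N, ∀ y z : Fin N → Bool, (∀ i, i ≠ j → y i = z i) → G y = G z}

theorem lev_three : Lev 3 = Two := rfl

theorem exists_level (F : Set (POp Bool)) {n : ℕ} (hn : 3 ≤ n) (hd : 2 * d F n < n) :
    ∃ N, 1 ≤ N ∧ Generates F (Lev N) := by
  obtain ⟨g, x, hg, hgn, hx⟩ := A2 F n hn hd
  obtain ⟨b, rfl⟩ : ∃ b, g = b + 1 := ⟨g - 1, by omega⟩
  obtain ⟨N, hN, hval⟩ := G5 x hgn
  refine ⟨N, hN, fun S hS hX => ?_⟩
  have h1 := hval {f : (Fin 0 × Bool) ⊕ (Fin N → Bool) → Bool | (fun z => f (Sum.inr z)) ∈ S}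
    (rc_of_closed hx (closed_pull (fun z : Fin N → Bool => (Sum.inr z : (Fin 0 × Bool) ⊕ (Fin N → Bool))) hS))
    (fun f ⟨k, _⟩ => k.elim0) (fun f hf => hX hf)
  apply Set.eq_univ_of_forall
  intro G
  have h2 : (fun s : (Fin 0 × Bool) ⊕ (Fin N → Bool) => Sum.elim (fun _ => false) G s) ∈
      {f : (Fin 0 × Bool) ⊕ (Fin N → Bool) → Bool | (fun z => f (Sum.inr z)) ∈ S} := by
    rw [h1]
    exact Set.mem_univ _
  exact h2

/-- The theorem: the bound on the level `3`, an example, and every family with small `d` has a level. -/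
theorem all :
    (∀ F : Set (POp Bool), Generates F (Lev 3) → ∀ n : ℕ, 2 ≤ n →
      (d F n : ℝ) ≤ 2 ^ 35 * Real.logb 2 n * 2 ^ (10 * √(Real.logb 2 (Real.logb 2 n)))) ∧
    Generates H38P.Alg (Lev 3) ∧
    ∀ F : Set (POp Bool), (∃ n : ℕ, 3 ≤ n ∧ 2 * d F n < n) → ∃ N, 1 ≤ N ∧ Generates F (Lev N) :=
  ⟨fun _ hF n hn => main hF n hn, alg_two, fun F ⟨_, hn, hd⟩ => exists_level F hn hd⟩

end H87L
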