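import Pool.Agent.Lib.H87L.Ring

/-! # H87L, file Geo: the grid (MP_73a90e_al)

The pairs `(i, j)` of points of the grid `{0, …, C-1}^k` are obtained in the order of `|i - j|²`: those with given
`s = i + j` and `r = |i - j|²` form a matching whose cross pairs are at smaller distance (the geometry is the one of
`H99E/Grid.lean`). -/

set_option autoImplicit false

namespace H87L

/-- square of the distance -/
def D {k C : ℕ} (i j : Fin k → Fin C) : ℤ := ∑ c, (((i c : ℕ) : ℤ) - ((j c : ℕ) : ℤ)) ^ 2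

/-- the point `s - i` -/
def opp {k C : ℕ} (hC : 0 < C) (s : Fin k → ℕ) (i : Fin k → Fin C) : Fin k → Fin C :=
  fun c => ⟨(s c - i c) % C, Nat.mod_lt _ hC⟩

/-- `i` belongs to the class `(s, r)` -/
def Val {k C : ℕ} (hC : 0 < C) (s : Fin k → ℕ) (r : ℕ) (i : Fin k → Fin C) : Prop :=
  (∀ c, (i c : ℕ) + (opp hC s i c : ℕ) = s c) ∧ D i (opp hC s i) = (r : ℤ)

theorem D_nonneg {k C : ℕ} (i j : Fin k → Fin C) : 0 ≤ D i j := Finset.sum_nonneg fun _ _ => sq_nonneg _

theorem D_le {k C : ℕ} (i j : Fin k → Fin C) : D i j ≤ (k * C ^ 2 : ℕ) := by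
  have h : D i j ≤ ∑ _c : Fin k, ((C : ℤ) ^ 2) := by
    refine Finset.sum_le_sum fun c _ => ?_
    have h1 : ((i c : ℕ) : ℤ) < C := by exact_mod_cast (i c).2
    have h2 : ((j c : ℕ) : ℤ) < C := by exact_mod_cast (j c).2
    have h3 : (0 : ℤ) ≤ ((i c : ℕ) : ℤ) := by positivity
    have h4 : (0 : ℤ) ≤ ((j c : ℕ) : ℤ) := by positivity
    have h5 : |((i c : ℕ) : ℤ) - ((j c : ℕ) : ℤ)| ≤ |(C : ℤ)| := by
      rw [abs_of_nonneg (a := (C : ℤ)) (by positivity), abs_le]
      constructor <;> linarith
    exact sq_le_sq.2 h5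
  simpa using h

/-- Strict convexity: the cross pairs of a class are at smaller distance. -/
theorem D_cross {k C : ℕ} (hC : 0 < C) {s : Fin k → ℕ} {r : ℕ} {m l : Fin k → Fin C} (hm : Val hC s r m)
    (hl : Val hC s r l) (hml : m ≠ l) : D m (opp hC s l) < r := by
  obtain ⟨hm1, hm2⟩ := hm
  obtain ⟨hl1, hl2⟩ := hl
  have em : ∀ c, ((opp hC s m c : ℕ) : ℤ) = (s c : ℤ) - ((m c : ℕ) : ℤ) := by
    intro c
    have := hm1 c
    have h : (((m c : ℕ) + (opp hC s m c : ℕ) : ℕ) : ℤ) = ((s c : ℕ) : ℤ) := by rw [this]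
    push_cast at h
    linarith
  have el : ∀ c, ((opp hC s l c : ℕ) : ℤ) = (s c : ℤ) - ((l c : ℕ) : ℤ) := by
    intro c
    have := hl1 c
    have h : (((l c : ℕ) + (opp hC s l c : ℕ) : ℕ) : ℤ) = ((s c : ℕ) : ℤ) := by rw [this]
    push_cast at h
    linarith
  have key : 2 * D m (opp hC s l) = D m (opp hC s m) + D l (opp hC s l) - 2 * D m l := by
    unfold D
    rw [Finset.mul_sum, Finset.mul_sum, ← Finset.sum_add_distrib, ← Finset.sum_sub_distrib]
    refine Finset.sum_congr rfl fun c _ => ?_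
    rw [em, el]
    ring
  have hpos : 0 < D m l := by
    obtain ⟨c, hc⟩ := Function.ne_iff.1 hml
    refine Finset.sum_pos' (fun _ _ => sq_nonneg _) ⟨c, Finset.mem_univ _, ?_⟩
    have h1 : ((m c : ℕ) : ℤ) - ((l c : ℕ) : ℤ) ≠ 0 := by
      intro h
      apply hc
      apply Fin.ext
      have : ((m c : ℕ) : ℤ) = ((l c : ℕ) : ℤ) := by linarith
      exact_mod_cast this
    positivity
  rw [hm2, hl2] at key
  linarith

theorem val_of {k C : ℕ} (hC : 0 < C) (i j : Fin k → Fin C) {r : ℕ} (hr : D i j = r) :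
    opp hC (fun c => (i c : ℕ) + (j c : ℕ)) i = j ∧ Val hC (fun c => (i c : ℕ) + (j c : ℕ)) r i := by
  have h1 : opp hC (fun c => (i c : ℕ) + (j c : ℕ)) i = j := by
    funext c
    apply Fin.ext
    show ((i c : ℕ) + (j c : ℕ) - (i c : ℕ)) % C = j c
    rw [Nat.add_sub_cancel_left, Nat.mod_eq_of_lt (j c).2]
  refine ⟨h1, fun c => ?_, ?_⟩
  · rw [h1]
  · rw [h1]
    exact hr

open Classical in
/-- the first sum -/
noncomputable def la {A : Type} [AddCommGroup A] {k C n : ℕ} (hC : 0 < C) (e : (Fin k → Fin C) → Fin n → Bool)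
    (s : Fin k → ℕ) (r : ℕ) (o : Option (Fin n)) (u : (Fin k → Fin C) → A) : A :=
  ∑ m with (∀ p ∈ o, e m p = true), if Val hC s r m then u m else 0

open Classical in
/-- the second sum -/
noncomputable def lb {B : Type} [AddCommGroup B] {k C n : ℕ} (hC : 0 < C) (e : (Fin k → Fin C) → Fin n → Bool)
    (s : Fin k → ℕ) (r : ℕ) (o : Option (Fin n)) (v : (Fin k → Fin C) → B) : B :=
  ∑ m with (∀ p ∈ o, e m p = true), if Val hC s r m then v (opp hC s m) else 0

/-- The sums over the classes generate all pairs. -/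
theorem grid {A B : Type} [AddCommGroup A] [AddCommGroup B] {R : A → B → Prop} {k C n : ℕ} (hC : 0 < C) (hR : Bi R)
    (h3 : ∀ a : A, a + a + a = 0) (h2 : ∀ b : B, b + b = 0) (u : (Fin k → Fin C) → A) (v : (Fin k → Fin C) → B)
    (e : (Fin k → Fin C) → Fin n → Bool) (he : Function.Injective e)
    (h : ∀ (s : Fin k → Fin (2 * C)) (r : Fin (k * C ^ 2 + 1)) (o : Option (Fin n)),
      R (la hC e (fun c => s c) r o u) (lb hC e (fun c => s c) r o v))
    (i j : Fin k → Fin C) : R (u i) (v j) := by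
  classical
  have main : ∀ N : ℕ, ∀ i j : Fin k → Fin C, D i j = N → R (u i) (v j) := by
    intro N
    induction N using Nat.strong_induction_on with
    | _ N ih =>
      intro i j hN
      obtain ⟨hopp, hval⟩ := val_of hC i j hN
      obtain ⟨s, hs⟩ : ∃ s : Fin k → ℕ, s = fun c => (i c : ℕ) + (j c : ℕ) := ⟨_, rfl⟩
      rw [← hs] at hopp hval
      have hN' : N < k * C ^ 2 + 1 := by
        have h1 := D_le i j
        rw [hN] at h1
        have : N ≤ k * C ^ 2 := by exact_mod_cast h1
        omega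
      have hsl : ∀ c, s c < 2 * C := by
        intro c
        rw [hs]
        have := (i c).2
        have := (j c).2
        show (i c : ℕ) + (j c : ℕ) < 2 * C
        omega
      have hgen : ∀ o : Option (Fin n), R (la hC e s N o u) (lb hC e s N o v) := by
        intro o
        exact h (fun c => ⟨s c, hsl c⟩) ⟨N, hN'⟩ o
      have hcross : ∀ m l, m ≠ l → R (if Val hC s N m then u m else 0) (if Val hC s N l then v (opp hC s l) else 0) := by
        intro m l hml
        by_cases h1 : Val hC s N m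
        · by_cases h2 : Val hC s N l
          · have h3 := D_cross hC h1 h2 hml
            obtain ⟨N', hN'⟩ : ∃ N' : ℕ, D m (opp hC s l) = N' := ⟨_, (Int.toNat_of_nonneg (D_nonneg _ _)).symm⟩
            have h4 : N' < N := by
              rw [hN'] at h3
              exact_mod_cast h3
            have h5 := ih N' h4 _ _ hN'
            rw [if_pos h1, if_pos h2]
            exact h5
          · rw [if_neg h2]
            exact hR.zr _
        · rw [if_neg h1]
          exact hR.zl _
      have h0 := hgen none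
      have hp := fun p => hgen (some p)
      have hres := ring_main hR h3 h2 hcross e he (by simpa [la, lb] using h0)
        (by
          intro p
          simpa [la, lb] using hp p) i
      rw [if_pos hval, if_pos hval, hopp] at hres
      exact hres
  obtain ⟨N, hN⟩ : ∃ N : ℕ, D i j = N := ⟨_, (Int.toNat_of_nonneg (D_nonneg _ _)).symm⟩
  exact main N i j hN

end H87L
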