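import Pool.Agent.Lib.H87L.Base
import Pool.Agent.Lib.H87L.Geo

/-! # H87L, file Rec: the recursions (MP_73a90e_al)

Two known words `x`, `y` and the relation `R F G`: all functions of `(F (x), G (y))` are in the family, where `F` has
values in `ℤ / 3` and `G` has values in `ℤ / 2`. -/

set_option autoImplicit false

namespace H87L

open Pool.H87G

/-- The relation of two known words. -/
theorem bi_of {Ω X Y : Type} [Finite Ω] {V : Set (Ω → Bool)} (hV : LRule 3 V) {x : Ω → X} {y : Ω → Y}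
    (hx : Kn V x) (hy : Kn V y) :
    Bi fun (F : X → ZMod 3) (G : Y → ZMod 2) => Kn V fun z => (F (x z), G (y z)) where
  zl := fun G => kn_comp hy fun w => ((0 : ZMod 3), G w)
  zr := fun F => kn_comp hx fun w => (F w, (0 : ZMod 2))
  addl := fun F F' _ h h' =>
    kn_comp (tri hV (kn_comp hx fun w => (F w, F' w)) h h') fun w : ZMod 3 × ZMod 3 × ZMod 2 => (w.1 + w.2.1, w.2.2)
  subl := fun F F' _ h h' =>
    kn_comp (tri hV (kn_comp hx fun w => (F w, F' w)) h h') fun w : ZMod 3 × ZMod 3 × ZMod 2 => (w.1 - w.2.1, w.2.2)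
  addr := fun _ G G' h h' =>
    kn_comp (tri hV h h' (kn_comp hy fun w => (G w, G' w))) fun w : ZMod 3 × ZMod 2 × ZMod 2 => (w.1, w.2.1 + w.2.2)
  subr := fun _ G G' h h' =>
    kn_comp (tri hV h h' (kn_comp hy fun w => (G w, G' w))) fun w : ZMod 3 × ZMod 2 × ZMod 2 => (w.1, w.2.1 - w.2.2)

/-- `I` relations suffice to generate all functions of two letters of the alphabet `X` from the functions of each. -/
def Cross (X I : Type) : Prop :=
  ∃ (u : I → X → ZMod 3) (v : I → X → ZMod 2), ∀ (Ω : Type) [Finite Ω] (V : Set (Ω → Bool)), LRule 3 V →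
    ∀ x y : Ω → X, Kn V x → Kn V y → (∀ i, Kn V fun z => (u i (x z), v i (y z))) → Kn V fun z => (x z, y z)

/-- `I` functions suffice to generate all functions of a letter of the alphabet `X`. -/
def Gen (X I : Type) : Prop :=
  ∃ g : I → X → Bool, ∀ (Ω : Type) [Finite Ω] (V : Set (Ω → Bool)), LRule 3 V → ∀ x : Ω → X,
    (∀ i, (fun z => g i (x z)) ∈ V) → Kn V x

theorem cross_bool : Cross Bool (Fin 1) := by
  refine ⟨fun _ b => if b then 1 else 0, fun _ b => if b then 1 else 0, fun Ω _ V hV x y hx hy h => ?_⟩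
  have hinj : Function.Injective fun p : Bool × Bool =>
      ((if p.1 then 1 else 0 : ZMod 3), (if p.2 then 1 else 0 : ZMod 2)) := by decide
  exact kn_of_inj hinj (h 0)

theorem cross_grid {X I : Type} [Finite X] {k C n : ℕ} (hC : 0 < C) (e : (Fin k → Fin C) → Fin n → Bool)
    (he : Function.Injective e) (h : Cross X I) :
    Cross ((Fin k → Fin C) → X) (((Fin k → Fin (2 * C)) × Fin (k * C ^ 2 + 1) × Option (Fin n)) × I) := by
  obtain ⟨u, v, huv⟩ := h
  refine ⟨fun p => la hC e (fun c => p.1.1 c) p.1.2.1 p.1.2.2 (fun i (w : (Fin k → Fin C) → X) => u p.2 (w i)),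
    fun p => lb hC e (fun c => p.1.1 c) p.1.2.1 p.1.2.2 (fun i (w : (Fin k → Fin C) → X) => v p.2 (w i)),
    fun Ω _ V hV x y hx hy h => ?_⟩
  have : Nonempty (Fin k → Fin C) := ⟨fun _ => ⟨0, hC⟩⟩
  refine join hV hx hy fun i j => huv Ω V hV _ _ (kn_comp hx fun w => w i) (kn_comp hy fun w => w j) fun t => ?_
  have h3 : ∀ a : ((Fin k → Fin C) → X) → ZMod 3, a + a + a = 0 := by
    intro a
    funext w
    have : ∀ c : ZMod 3, c + c + c = 0 := by decide
    exact this (a w)
  have h2 : ∀ a : ((Fin k → Fin C) → X) → ZMod 2, a + a = 0 := by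
    intro a
    funext w
    have : ∀ c : ZMod 2, c + c = 0 := by decide
    exact this (a w)
  exact grid hC (bi_of hV hx hy) h3 h2 (fun i (w : (Fin k → Fin C) → X) => u t (w i))
    (fun i (w : (Fin k → Fin C) → X) => v t (w i)) e he (fun s r o => h ((s, r, o), t)) i j

theorem cross_emb {X Y I : Type} (h : Cross X I) (e : Y → X) (he : Function.Injective e) : Cross Y I := by
  obtain ⟨u, v, huv⟩ := h
  refine ⟨fun i y => u i (e y), fun i y => v i (e y), fun Ω _ V hV x y hx hy h => ?_⟩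
  have h1 := huv Ω V hV (fun z => e (x z)) (fun z => e (y z)) (kn_comp hx e) (kn_comp hy e) h
  exact kn_of_inj (e := Prod.map e e) (he.prodMap he) h1

theorem gen_bool : Gen Bool (Bool → Bool) :=
  ⟨fun f => f, fun _ _ _ _ _ h => h⟩

theorem gen_sq {X I J : Type} (h : Gen X I) (hc : Cross X J) :
    Gen (X × X) ((I ⊕ I) ⊕ (J × (ZMod 3 × ZMod 2 → Bool))) := by
  obtain ⟨g, hg⟩ := h
  obtain ⟨u, v, huv⟩ := hc
  refine ⟨fun s => s.elim (fun s => s.elim (fun i p => g i p.1) (fun i p => g i p.2))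
    (fun j p => j.2 (u j.1 p.1, v j.1 p.2)), fun Ω _ V hV x h => ?_⟩
  have h1 : Kn V fun z => (x z).1 := hg Ω V hV _ fun i => h (Sum.inl (Sum.inl i))
  have h2 : Kn V fun z => (x z).2 := hg Ω V hV _ fun i => h (Sum.inl (Sum.inr i))
  exact huv Ω V hV _ _ h1 h2 fun j F => h (Sum.inr (j, F))

theorem gen_emb {X Y I : Type} (h : Gen X I) (e : Y → X) (he : Function.Injective e) : Gen Y I := by
  obtain ⟨g, hg⟩ := h
  exact ⟨fun i y => g i (e y), fun Ω _ V hV x h => kn_of_inj he (hg Ω V hV (fun z => e (x z)) h)⟩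

/-- size version of `Cross` -/
def CrossN (N c : ℕ) : Prop := ∃ (I : Type) (_ : Fintype I), Fintype.card I = c ∧ Cross (Fin N) I

/-- size version of `Gen` -/
def GenN (N m : ℕ) : Prop := ∃ (I : Type) (_ : Fintype I), Fintype.card I = m ∧ Gen (Fin N) I

theorem inj_of_le {X Y : Type} [Fintype X] [Fintype Y] (h : Fintype.card Y ≤ Fintype.card X) :
    ∃ e : Y → X, Function.Injective e := by
  obtain ⟨e⟩ := Function.Embedding.nonempty_of_card_le h
  exact ⟨e, e.injective⟩

theorem crossN_two : CrossN 2 1 := by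
  obtain ⟨e, he⟩ := inj_of_le (X := Bool) (Y := Fin 2) (by simp)
  exact ⟨Fin 1, inferInstance, by simp, cross_emb cross_bool e he⟩

theorem crossN_le {N M c : ℕ} (h : CrossN N c) (hM : M ≤ N) : CrossN M c := by
  obtain ⟨I, hI, hc, h⟩ := h
  exact ⟨I, hI, hc, cross_emb h (Fin.castLE hM) (Fin.castLE_injective hM)⟩

theorem crossN_grid {N M c k C : ℕ} (hC : 0 < C) (h : CrossN N c) (hM : M ≤ N ^ C ^ k) :
    CrossN M ((2 * C) ^ k * (k * C ^ 2 + 1) * (k * Nat.clog 2 C + 1) * c) := by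
  obtain ⟨I, hI, hc, h⟩ := h
  obtain ⟨e, he⟩ := inj_of_le (X := Fin (k * Nat.clog 2 C) → Bool) (Y := Fin k → Fin C) (by
    simp only [Fintype.card_fun, Fintype.card_fin, Fintype.card_bool]
    rw [mul_comm k, pow_mul]
    exact Nat.pow_le_pow_left (Nat.le_pow_clog (by norm_num) C) k)
  obtain ⟨e', he'⟩ := inj_of_le (X := (Fin k → Fin C) → Fin N) (Y := Fin M) (by simpa using hM)
  refine ⟨((Fin k → Fin (2 * C)) × Fin (k * C ^ 2 + 1) × Option (Fin (k * Nat.clog 2 C))) × I, inferInstance, ?_,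
    cross_emb (cross_grid hC e he h) e' he'⟩
  simp only [Fintype.card_prod, Fintype.card_fun, Fintype.card_fin, Fintype.card_option, hc]
  ring

theorem crossN_grid_pow {k C : ℕ} (hC : 0 < C) (j : ℕ) :
    CrossN (2 ^ (C ^ k) ^ j) (((2 * C) ^ k * (k * C ^ 2 + 1) * (k * Nat.clog 2 C + 1)) ^ j) := by
  induction j with
  | zero => simpa using crossN_two
  | succ j ih =>
    have h := crossN_grid (k := k) hC ih (M := 2 ^ (C ^ k) ^ (j + 1)) (le_of_eq (by rw [pow_succ (C ^ k) j, pow_mul 2]))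
    rw [pow_succ' ((2 * C) ^ k * (k * C ^ 2 + 1) * (k * Nat.clog 2 C + 1))]
    exact h

theorem genN_two : GenN 2 4 := by
  obtain ⟨e, he⟩ := inj_of_le (X := Bool) (Y := Fin 2) (by simp)
  exact ⟨Bool → Bool, inferInstance, by simp, gen_emb gen_bool e he⟩

theorem genN_le {N M m : ℕ} (h : GenN N m) (hM : M ≤ N) : GenN M m := by
  obtain ⟨I, hI, hc, h⟩ := h
  exact ⟨I, hI, hc, gen_emb h (Fin.castLE hM) (Fin.castLE_injective hM)⟩

theorem genN_sq {N M m c : ℕ} (h : GenN N m) (h' : CrossN N c) (hM : M ≤ N * N) : GenN M (2 * m + 64 * c) := by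
  obtain ⟨I, hI, hc, h⟩ := h
  obtain ⟨J, hJ, hc', h'⟩ := h'
  obtain ⟨e, he⟩ := inj_of_le (X := Fin N × Fin N) (Y := Fin M) (by simpa using hM)
  refine ⟨(I ⊕ I) ⊕ (J × (ZMod 3 × ZMod 2 → Bool)), inferInstance, ?_, gen_emb (gen_sq h h') e he⟩
  simp only [Fintype.card_sum, Fintype.card_prod, Fintype.card_fun, ZMod.card, Fintype.card_bool, hc, hc']
  norm_num
  ring

theorem d_le {F : Set (POp Bool)} (hF : Generates F Two) {n m : ℕ} (h : GenN n m) : d F n ≤ m := by
  classical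
  obtain ⟨I, hI, hc, g, hg⟩ := h
  have h1 : Generates F ((Finset.univ.image g : Finset (Fin n → Bool)) : Set (Fin n → Bool)) := by
    intro S hS hX
    apply Set.eq_univ_of_forall
    intro f
    exact hg (Fin n) S (rule_of hF hS) id (fun i => hX (by simp)) f
  calc d F n ≤ (Finset.univ.image g).card := Nat.sInf_le ⟨_, rfl, h1⟩
    _ ≤ Fintype.card I := Finset.card_image_le
    _ = m := hc

end H87L
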