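import Pool.Agent.Lib.H87G.C1

/-! # H87L, file Base: known words (MP_73a90e_al)

`V` is a family of Boolean functions on the finite set `Ω` with the rule `LRule 3` (if all functions of two of `a, b, c`
are in `V`, then all functions of `a, b, c` are). A word `x : Ω → X` is known if all functions of `x` are in `V`. Words
with pairwise known letters are known. -/

set_option autoImplicit false

namespace H87L

open Pool.H87G

/-- all functions of `x` are there -/
def Kn {Ω X : Type} (V : Set (Ω → Bool)) (x : Ω → X) : Prop := ∀ F : X → Bool, (fun z => F (x z)) ∈ V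

theorem kn_comp {Ω X Y : Type} {V : Set (Ω → Bool)} {x : Ω → X} (h : Kn V x) (e : X → Y) : Kn V fun z => e (x z) :=
  fun F => h fun p => F (e p)

theorem kn_of_inj {Ω X Y : Type} {V : Set (Ω → Bool)} {x : Ω → X} {e : X → Y} (he : Function.Injective e)
    (h : Kn V fun z => e (x z)) : Kn V x := by
  intro F
  have h1 := h (Function.extend e F fun _ => false)
  simpa only [he.extend_apply] using h1

/-- the two other indices -/
theorem others (j : Fin 3) : ∃ k l : Fin 3, ∀ i, i ≠ j → i = k ∨ i = l := by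
  fin_cases j
  · exact ⟨1, 2, by decide⟩
  · exact ⟨0, 2, by decide⟩
  · exact ⟨0, 1, by decide⟩

/-- Pairwise known letters form a known word. -/
theorem pw {Ω S Z : Type} [Finite Ω] [Finite S] [Nonempty S] [Finite Z] {V : Set (Ω → Bool)} (hV : LRule 3 V)
    (x : Ω → S → Z) (h : ∀ s t, Kn V fun z => (x z s, x z t)) : Kn V x := by
  classical
  obtain ⟨s0⟩ := ‹Nonempty S›
  obtain ⟨F0, hF0⟩ : ∃ F0 : Set (Ω → Bool), F0 = {f | ∃ s, ∃ g : Z → Bool, f = fun z => g (x z s)} := ⟨_, rfl⟩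
  have hne : F0.Nonempty := ⟨_, by rw [hF0]; exact ⟨s0, fun _ => true, rfl⟩⟩
  have hPi : PiProp 3 V F0 := by
    rintro v hv G ⟨j, hj⟩
    rw [hF0] at hv
    choose s g hsg using hv
    obtain ⟨k, l, hkl⟩ := others j
    have h1 := h (s k) (s l) (fun p => G fun i => if i = k then g k p.1 else if i = l then g l p.2 else false)
    have e : (fun z => G fun i => v i z) =
        fun z => G fun i => if i = k then g k (x z (s k)) else if i = l then g l (x z (s l)) else false := by
      funext z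
      apply hj
      intro i hi
      by_cases h2 : i = k
      · subst h2
        rw [if_pos rfl, hsg i]
      · have h3 : i = l := (hkl i hi).resolve_left h2
        subst h3
        rw [if_neg h2, if_pos rfl, hsg i]
    rw [e]
    exact h1
  intro F
  have : Fintype (S × Z) := Fintype.ofFinite _
  obtain ⟨σ⟩ : Nonempty (Fin (Fintype.card (S × Z)) ≃ S × Z) := ⟨(Fintype.equivFin _).symm⟩
  obtain ⟨enc, henc⟩ : ∃ enc : (S → Z) → Fin (Fintype.card (S × Z)) → Bool,
      enc = fun w i => decide (w (σ i).1 = (σ i).2) := ⟨_, rfl⟩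
  have hinj : Function.Injective enc := by
    intro w w' hw
    funext s
    have h1 := congrFun hw (σ.symm (s, w s))
    rw [henc] at h1
    simp only [Equiv.apply_symm_apply, decide_true] at h1
    exact (of_decide_eq_true h1.symm).symm
  have h1 := C1 (r := 3) (by norm_num) V hV F0 hne hPi (Fintype.card (S × Z))
    (fun i z => enc (x z) i) (fun i => by
      rw [hF0, henc]
      exact ⟨(σ i).1, fun t => decide (t = (σ i).2), rfl⟩) (Function.extend enc F fun _ => false)
  have e : (fun z => Function.extend enc F (fun _ => false) fun i => enc (x z) i) = fun z => F (x z) := by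
    funext z
    exact hinj.extend_apply F _ (x z)
  rw [e] at h1
  exact h1

/-- three words -/
theorem tri {Ω P P' Q : Type} [Finite Ω] [Finite P] [Finite P'] [Finite Q] {V : Set (Ω → Bool)} (hV : LRule 3 V)
    {p : Ω → P} {p' : Ω → P'} {q : Ω → Q} (h1 : Kn V fun z => (p z, p' z)) (h2 : Kn V fun z => (p z, q z))
    (h3 : Kn V fun z => (p' z, q z)) : Kn V fun z => (p z, p' z, q z) := by
  obtain ⟨en, hen⟩ : ∃ en : P × P' × Q → Fin 3 → P ⊕ (P' ⊕ Q),
      en = fun w => ![Sum.inl w.1, Sum.inr (Sum.inl w.2.1), Sum.inr (Sum.inr w.2.2)] := ⟨_, rfl⟩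
  have hinj : Function.Injective en := by
    rintro ⟨a, b, c⟩ ⟨a', b', c'⟩ hw
    rw [hen] at hw
    have e0 := congrFun hw 0
    have e1 := congrFun hw 1
    have e2 := congrFun hw 2
    simp at e0 e1 e2
    rw [e0, e1, e2]
  refine kn_of_inj hinj (pw hV _ fun s t => ?_)
  have hp : Kn V p := kn_comp h1 Prod.fst
  have hp' : Kn V p' := kn_comp h1 Prod.snd
  have hq : Kn V q := kn_comp h2 Prod.snd
  rw [hen]
  fin_cases s <;> fin_cases t
  · exact kn_comp hp fun a => ((Sum.inl a : P ⊕ (P' ⊕ Q)), (Sum.inl a : P ⊕ (P' ⊕ Q)))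
  · exact kn_comp h1 fun a => ((Sum.inl a.1 : P ⊕ (P' ⊕ Q)), (Sum.inr (Sum.inl a.2) : P ⊕ (P' ⊕ Q)))
  · exact kn_comp h2 fun a => ((Sum.inl a.1 : P ⊕ (P' ⊕ Q)), (Sum.inr (Sum.inr a.2) : P ⊕ (P' ⊕ Q)))
  · exact kn_comp h1 fun a => ((Sum.inr (Sum.inl a.2) : P ⊕ (P' ⊕ Q)), (Sum.inl a.1 : P ⊕ (P' ⊕ Q)))
  · exact kn_comp hp' fun a => ((Sum.inr (Sum.inl a) : P ⊕ (P' ⊕ Q)), (Sum.inr (Sum.inl a) : P ⊕ (P' ⊕ Q)))
  · exact kn_comp h3 fun a => ((Sum.inr (Sum.inl a.1) : P ⊕ (P' ⊕ Q)), (Sum.inr (Sum.inr a.2) : P ⊕ (P' ⊕ Q)))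
  · exact kn_comp h2 fun a => ((Sum.inr (Sum.inr a.2) : P ⊕ (P' ⊕ Q)), (Sum.inl a.1 : P ⊕ (P' ⊕ Q)))
  · exact kn_comp h3 fun a => ((Sum.inr (Sum.inr a.2) : P ⊕ (P' ⊕ Q)), (Sum.inr (Sum.inl a.1) : P ⊕ (P' ⊕ Q)))
  · exact kn_comp hq fun a => ((Sum.inr (Sum.inr a) : P ⊕ (P' ⊕ Q)), (Sum.inr (Sum.inr a) : P ⊕ (P' ⊕ Q)))

/-- Two known words whose letters are pairwise known together are known together. -/
theorem join {Ω ι κ X Y : Type} [Finite Ω] [Finite ι] [Finite κ] [Nonempty ι] [Finite X] [Finite Y]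
    {V : Set (Ω → Bool)} (hV : LRule 3 V) {x : Ω → ι → X} {y : Ω → κ → Y} (hx : Kn V x) (hy : Kn V y)
    (h : ∀ i j, Kn V fun z => (x z i, y z j)) : Kn V fun z => (x z, y z) := by
  obtain ⟨en, hen⟩ : ∃ en : (ι → X) × (κ → Y) → ι ⊕ κ → X ⊕ Y,
      en = fun w => Sum.elim (fun i => Sum.inl (w.1 i)) (fun j => Sum.inr (w.2 j)) := ⟨_, rfl⟩
  have hinj : Function.Injective en := by
    rintro ⟨a, b⟩ ⟨a', b'⟩ hw
    rw [hen] at hw
    refine Prod.ext (funext fun i => ?_) (funext fun j => ?_)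
    · have := congrFun hw (Sum.inl i)
      simpa using this
    · have := congrFun hw (Sum.inr j)
      simpa using this
  refine kn_of_inj hinj (pw hV _ fun s t => ?_)
  rw [hen]
  rcases s with s | s <;> rcases t with t | t
  · exact kn_comp hx fun w => ((Sum.inl (w s) : X ⊕ Y), (Sum.inl (w t) : X ⊕ Y))
  · exact kn_comp (h s t) fun w => ((Sum.inl w.1 : X ⊕ Y), (Sum.inr w.2 : X ⊕ Y))
  · exact kn_comp (h t s) fun w => ((Sum.inr w.2 : X ⊕ Y), (Sum.inl w.1 : X ⊕ Y))
  · exact kn_comp hy fun w => ((Sum.inr (w s) : X ⊕ Y), (Sum.inr (w t) : X ⊕ Y))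

/-- the functions of at most two of three bits -/
def Two : Set ((Fin 3 → Bool) → Bool) := {G | ∃ j, MissBit j G}

/-- The rule follows from a condition on the eighth power. -/
theorem rule_of {F : Set (POp Bool)} (hF : Generates F Two) {Ω : Type} {S : Set (Ω → Bool)} (hS : Closed F S) :
    LRule 3 S := by
  intro v hv G
  have h1 : Closed F {G : (Fin 3 → Bool) → Bool | (fun z => G (fun l => v l z)) ∈ S} := by
    intro f hf s hs hd
    exact hS f hf (fun i z => s i (fun l => v l z)) hs (fun z => hd fun l => v l z)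
  have h2 := hF _ h1 (fun G hG => hv G hG)
  have h3 : G ∈ {G : (Fin 3 → Bool) → Bool | (fun z => G (fun l => v l z)) ∈ S} := by
    rw [h2]
    exact Set.mem_univ _
  exact h3

end H87L
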