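import Pool.Agent.Lib.H87L.Rec
import Pool.Agent.Lib.H99E.ExplicitGen

/-! # H87L, file End: the bound for the whole class (MP_73a90e_al)

The count of the classes and the analytic end are the ones of `H99E` (`cc_le`, `explicit_gen`). -/

set_option autoImplicit false

namespace H87L

open Pool.H87G

theorem crossN_cc (i : ℕ) : CrossN (2 ^ 2 ^ i) (H99E.cc i) := by
  refine crossN_grid (by positivity) crossN_two ?_
  refine Nat.pow_le_pow_right (by norm_num) ?_
  rw [← pow_mul]
  exact Nat.pow_le_pow_right (by norm_num) (Nat.lt_succ_sqrt i).le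

/-- the number of generators -/
def TL : ℕ → ℕ
  | 0 => 4
  | i + 1 => 2 * TL i + 64 * H99E.cc i

theorem genN_TL (i : ℕ) : GenN (2 ^ 2 ^ i) (TL i) := by
  induction i with
  | zero => simpa [TL] using genN_two
  | succ i ih =>
    exact genN_sq ih (crossN_cc i) (le_of_eq (by rw [← pow_add, pow_succ]; congr 1; ring))

/-- The bound for all families of the class. -/
theorem main {F : Set (POp Bool)} (hF : Generates F Two) (n : ℕ) (hn : 2 ≤ n) :
    (d F n : ℝ) ≤ 2 ^ 35 * Real.logb 2 n * 2 ^ (10 * √(Real.logb 2 (Real.logb 2 n))) := by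
  have h := H99E.explicit_gen F 64 (fun i => 64 * H99E.cc i) TL
    (fun i => Nat.mul_le_mul_left 64 (H99E.cc_le i)) (by decide) (fun i => le_rfl)
    (fun i n h => d_le hF (genN_le (genN_TL i) h)) n hn
  calc (d F n : ℝ) ≤ (64 : ℕ) * (2 ^ 29 * Real.logb 2 n * 2 ^ (10 * √(Real.logb 2 (Real.logb 2 n)))) := h
    _ = 2 ^ 35 * Real.logb 2 n * 2 ^ (10 * √(Real.logb 2 (Real.logb 2 n))) := by
      push_cast
      ring

/-- The algebra `A_2` of `H38P` is in the class. -/
theorem alg_two : Generates H38P.Alg Two := by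
  intro S hS hX
  have hok := H38P.ok_of hS
  apply Set.eq_univ_of_forall
  intro G
  have hmiss : ∀ (j : Fin 3) (f : (Fin 3 → Bool) → Bool), MissBit j f → f ∈ S := fun j f h => hX ⟨j, h⟩
  refine H38P.of_points (hmiss 0 _ fun _ _ _ => rfl) (fun f g hf hg => hok.add f g hf hg) (fun q f hf => ?_) G
  have h1 := hok.tri (fun p : Fin 3 → Bool => decide (p 0 = q 0)) (fun p => decide (p 1 = q 1))
    (fun p => decide (p 2 = q 2))
    (hmiss 1 _ fun y z h => by simp only [h 0 (by decide)])
    (hmiss 0 _ fun y z h => by simp only [h 1 (by decide)])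
    (hmiss 0 _ fun y z h => by simp only [h 2 (by decide)])
    (hmiss 2 _ fun y z h => by simp only [h 0 (by decide), h 1 (by decide)])
    (hmiss 1 _ fun y z h => by simp only [h 0 (by decide), h 2 (by decide)])
    (hmiss 0 _ fun y z h => by simp only [h 1 (by decide), h 2 (by decide)])
  have h2 : f = fun p : Fin 3 → Bool => decide (p 0 = q 0) && decide (p 1 = q 1) && decide (p 2 = q 2) := by
    funext p
    rw [Bool.eq_iff_iff, hf, Bool.and_eq_true, Bool.and_eq_true, decide_eq_true_iff, decide_eq_true_iff,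
      decide_eq_true_iff]
    constructor
    · rintro rfl
      exact ⟨⟨rfl, rfl⟩, rfl⟩
    · rintro ⟨⟨h0, h1⟩, h2⟩
      funext i
      fin_cases i
      · exact h0
      · exact h1
      · exact h2
  rw [h2]
  exact h1

end H87L
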