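import Mathlib

/-! # H87L, file Ring: relations whose sections are groups, one group of exponent 3 and one of exponent 2 -/

set_option autoImplicit false

namespace H87L

/-- all sections of the relation are subgroups -/
structure Bi {A B : Type} [AddCommGroup A] [AddCommGroup B] (R : A → B → Prop) : Prop where
  zl : ∀ b, R 0 b
  zr : ∀ a, R a 0
  addl : ∀ a a' b, R a b → R a' b → R (a + a') b
  addr : ∀ a b b', R a b → R a b' → R a (b + b')
  subl : ∀ a a' b, R a b → R a' b → R (a - a') b
  subr : ∀ a b b', R a b → R a b' → R a (b - b')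

variable {A B : Type} [AddCommGroup A] [AddCommGroup B] {R : A → B → Prop}

/-- The gadget: three pairs, two of the sums. -/
theorem gadget (hR : Bi R) (h3 : ∀ a : A, a + a + a = 0) (h2 : ∀ b : B, b + b = 0) {a1 a2 a3 : A} {b1 b2 b3 : B}
    (h12 : R a1 b2) (h13 : R a1 b3) (h21 : R a2 b1) (h23 : R a2 b3) (h31 : R a3 b1) (h32 : R a3 b2)
    (hp : R (a1 + a2) (b1 + b2)) (hq : R (a2 + a3) (b2 + b3)) : R a2 b2 := by
  have s1 : R a3 (b1 + b2) := hR.addr _ _ _ h31 h32
  have s2 : R a1 (b2 + b3) := hR.addr _ _ _ h12 h13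
  have s3 : R a2 (b1 + b3) := hR.addr _ _ _ h21 h23
  have s4 : R (a1 + a2 + a3) (b1 + b2) := hR.addl _ _ _ hp s1
  have s5 : R (a1 + (a2 + a3)) (b2 + b3) := hR.addl _ _ _ s2 hq
  rw [← add_assoc] at s5
  have s6 : R (a1 + a2 + a3) (b1 + b3) := by
    have h := hR.addr _ _ _ s4 s5
    have e : b1 + b2 + (b2 + b3) = b1 + b3 + (b2 + b2) := by abel
    rw [e, h2, add_zero] at h
    exact h
  have s7 : R (a1 + a3) (b1 + b3) := by
    have h := hR.subl _ _ _ s6 s3
    have e : a1 + a2 + a3 - a2 = a1 + a3 := by abel
    rw [e] at h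
    exact h
  have s8 : R (a2 + a3) (b1 + b2 + b3) := by
    have h := hR.addr _ _ _ (hR.addl _ _ _ h21 h31) hq
    rw [← add_assoc] at h
    exact h
  have s9 : R (a1 + a3) (b1 + b2 + b3) := by
    have h := hR.addr _ _ _ (hR.addl _ _ _ h12 h32) s7
    have e : b2 + (b1 + b3) = b1 + b2 + b3 := by abel
    rw [e] at h
    exact h
  have s10 : R (a1 + a2) (b1 + b2 + b3) := hR.addr _ _ _ hp (hR.addl _ _ _ h13 h23)
  have s11 : R (-a2) (b1 + b2 + b3) := by
    have h := hR.subl _ _ _ (hR.addl _ _ _ s8 s10) s9
    have e : a2 + a3 + (a1 + a2) - (a1 + a3) = a2 + a2 + a2 - a2 := by abel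
    rw [e, h3, zero_sub] at h
    exact h
  have s12 : R a2 (b1 + b2 + b3) := by
    have h := hR.subl _ _ _ (hR.zl _) s11
    rwa [zero_sub, neg_neg] at h
  have h := hR.subr _ _ _ s12 s3
  have e : b1 + b2 + b3 - (b1 + b3) = b2 := by abel
  rwa [e] at h

section

variable {M : Type} [DecidableEq M] {u : M → A} {v : M → B}

omit [DecidableEq M] in
theorem suml (hR : Bi R) {P : Finset M} {b : B} (h : ∀ m ∈ P, R (u m) b) : R (∑ m ∈ P, u m) b := by
  classical
  induction P using Finset.induction with
  | empty => simpa using hR.zl b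
  | insert a P ha ih =>
    rw [Finset.sum_insert ha]
    exact hR.addl _ _ _ (h a (Finset.mem_insert_self a P)) (ih fun m hm => h m (Finset.mem_insert_of_mem hm))

omit [DecidableEq M] in
theorem sumr (hR : Bi R) {P : Finset M} {a : A} (h : ∀ m ∈ P, R a (v m)) : R a (∑ m ∈ P, v m) := by
  classical
  induction P using Finset.induction with
  | empty => simpa using hR.zr a
  | insert c P ha ih =>
    rw [Finset.sum_insert ha]
    exact hR.addr _ _ _ (h c (Finset.mem_insert_self c P)) (ih fun m hm => h m (Finset.mem_insert_of_mem hm))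

omit [DecidableEq M] in
theorem cross_sum (hR : Bi R) (hc : ∀ m l, m ≠ l → R (u m) (v l)) {P Q : Finset M} (h : Disjoint P Q) :
    R (∑ m ∈ P, u m) (∑ m ∈ Q, v m) :=
  suml hR fun m hm => sumr hR fun l hl => hc m l fun e => Finset.disjoint_left.1 h hm (e ▸ hl)

theorem inter_mem (hR : Bi R) (h3 : ∀ a : A, a + a + a = 0) (h2 : ∀ b : B, b + b = 0)
    (hc : ∀ m l, m ≠ l → R (u m) (v l)) {S T : Finset M} (hS : R (∑ m ∈ S, u m) (∑ m ∈ S, v m))
    (hT : R (∑ m ∈ T, u m) (∑ m ∈ T, v m)) : R (∑ m ∈ S ∩ T, u m) (∑ m ∈ S ∩ T, v m) := by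
  have d12 : Disjoint (S \ T) (S ∩ T) := by
    rw [Finset.disjoint_left]
    intro x hx hy
    exact (Finset.mem_sdiff.1 hx).2 (Finset.mem_inter.1 hy).2
  have d23 : Disjoint (S ∩ T) (T \ S) := by
    rw [Finset.disjoint_left]
    intro x hx hy
    exact (Finset.mem_sdiff.1 hy).2 (Finset.mem_inter.1 hx).1
  have d13 : Disjoint (S \ T) (T \ S) := by
    rw [Finset.disjoint_left]
    intro x hx hy
    exact (Finset.mem_sdiff.1 hx).2 (Finset.mem_sdiff.1 hy).1
  have eS : S = S \ T ∪ S ∩ T := by
    ext x
    simp only [Finset.mem_union, Finset.mem_inter, Finset.mem_sdiff]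
    tauto
  have eT : T = S ∩ T ∪ T \ S := by
    ext x
    simp only [Finset.mem_union, Finset.mem_inter, Finset.mem_sdiff]
    tauto
  refine gadget hR h3 h2 (cross_sum hR hc d12) (cross_sum hR hc d13) (cross_sum hR hc d12.symm)
    (cross_sum hR hc d23) (cross_sum hR hc d13.symm) (cross_sum hR hc d23.symm) ?_ ?_
  · rw [← Finset.sum_union d12, ← Finset.sum_union d12, ← eS]
    exact hS
  · rw [← Finset.sum_union d23, ← Finset.sum_union d23, ← eT]
    exact hT

/-- Logarithmically many sums generate all diagonal pairs. -/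
theorem ring_main [Fintype M] (hR : Bi R) (h3 : ∀ a : A, a + a + a = 0) (h2 : ∀ b : B, b + b = 0)
    (hc : ∀ m l, m ≠ l → R (u m) (v l)) {b : ℕ} (e : M → Fin b → Bool) (he : Function.Injective e)
    (h0 : R (∑ m, u m) (∑ m, v m))
    (hb : ∀ p, R (∑ m with e m p = true, u m) (∑ m with e m p = true, v m)) (m : M) : R (u m) (v m) := by
  have g2 : ∀ p, ∀ c : Bool, R (∑ m with e m p = c, u m) (∑ m with e m p = c, v m) := by
    intro p c
    cases c
    · have hu : (∑ m, u m) - (∑ m with e m p = true, u m) = ∑ m with e m p = false, u m := by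
        rw [sub_eq_iff_eq_add, ← Finset.sum_filter_add_sum_filter_not Finset.univ (fun m => e m p = false)]
        congr 1
        refine Finset.sum_congr ?_ fun _ _ => rfl
        ext x
        simp
      have hv : (∑ m, v m) - (∑ m with e m p = true, v m) = ∑ m with e m p = false, v m := by
        rw [sub_eq_iff_eq_add, ← Finset.sum_filter_add_sum_filter_not Finset.univ (fun m => e m p = false)]
        congr 1
        refine Finset.sum_congr ?_ fun _ _ => rfl
        ext x
        simp
      have hd : Disjoint (Finset.univ.filter fun m => e m p = false) (Finset.univ.filter fun m => e m p = true) := by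
        rw [Finset.disjoint_left]
        intro x hx hy
        simp only [Finset.mem_filter, Finset.mem_univ, true_and] at hx hy
        rw [hx] at hy
        exact absurd hy (by simp)
      have c1 := cross_sum hR hc hd
      have c2 := cross_sum hR hc hd.symm
      -- R (U, s')
      have hU : (∑ m, u m) = (∑ m with e m p = true, u m) + ∑ m with e m p = false, u m := by
        rw [← hu]
        abel
      have k1 : R (∑ m, u m) (∑ m with e m p = true, v m) := by
        rw [hU]
        exact hR.addl _ _ _ (hb p) c1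
      have k2 := hR.subr _ _ _ h0 k1
      rw [hv] at k2
      have k3 := hR.subl _ _ _ k2 c2
      rwa [hu] at k3
    · exact hb p
  have key : ∀ Q : Finset (Fin b), R (∑ l with ∀ p ∈ Q, e l p = e m p, u l) (∑ l with ∀ p ∈ Q, e l p = e m p, v l) := by
    intro Q
    induction Q using Finset.induction with
    | empty => simpa using h0
    | insert p Q _ ih =>
      have h := inter_mem hR h3 h2 hc (g2 p (e m p)) ih
      have e1 : (Finset.univ.filter fun l => e l p = e m p) ∩ (Finset.univ.filter fun l => ∀ q ∈ Q, e l q = e m q) =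
          Finset.univ.filter fun l => ∀ q ∈ insert p Q, e l q = e m q := by
        ext x
        simp
      rwa [e1] at h
  have h := key Finset.univ
  have e1 : (Finset.univ.filter fun l => ∀ p ∈ (Finset.univ : Finset (Fin b)), e l p = e m p) = {m} := by
    ext x
    simp only [Finset.mem_filter, Finset.mem_univ, true_and, true_implies, Finset.mem_singleton]
    constructor
    · intro h
      exact he (funext h)
    · rintro rfl _
      rfl
  rwa [e1, Finset.sum_singleton, Finset.sum_singleton] at h

end

end H87L
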